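import Mathlib
import Pool.Agent.H577R3.RM.Stmts

set_option autoImplicit false

/-! Averaging over the switchings of one word. -/

namespace Pool.Agent.H577R3.RM.KeyP

open Pool.Agent.H577R3.RM

variable {n ℓ : ℕ}

/-- put the word `c` in the windows `t ∈ S` -/
def putc (c : Fin 4 → Lt n) (S : Finset ℕ) (w : Fin ℓ → Lt n) : Fin ℓ → Lt n := fun i =>
  if h : i.1 / 6 ∈ S ∧ 1 ≤ i.1 % 6 ∧ i.1 % 6 ≤ 4 then c ⟨i.1 % 6 - 1, by omega⟩ else w i

theorem putc_c1 (k k' : Fin n) (S : Finset ℕ) (w : Fin ℓ → Lt n) :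
    putc (c1 k k') S w = put k k' S w := rfl

theorem putc_putc (c c' : Fin 4 → Lt n) (S : Finset ℕ) (w : Fin ℓ → Lt n) :
    putc c' S (putc c S w) = putc c' S w := by
  funext i
  unfold putc
  split_ifs <;> rfl

theorem putc_self (c : Fin 4 → Lt n) (S : Finset ℕ) (w : Fin ℓ → Lt n)
    (h : ∀ t ∈ S, At w (6 * t + 1) c) : putc c S w = w := by
  funext i
  unfold putc
  split_ifs with h1
  · obtain ⟨h2, h3, h4⟩ := h1
    obtain ⟨h5, h6⟩ := h _ h2 ⟨i.1 % 6 - 1, by omega⟩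
    rw [← h6]
    congr 1
    apply Fin.ext
    simp only
    omega
  · rfl

theorem at_lt {b : ℕ} (hb : 0 < b) {w : Fin ℓ → Lt n} {s : ℕ} {c : Fin b → Lt n} (h : At w s c) : s < ℓ := by
  obtain ⟨h1, _⟩ := h ⟨0, hb⟩
  omega

/-- windows after the change, inside -/
theorem at_putc_mem (c : Fin 4 → Lt n) (S : Finset ℕ) (w : Fin ℓ → Lt n) (t : ℕ) (ht : t ∈ S)
    (hw : 6 * t + 1 + 3 < ℓ) : At (putc c S w) (6 * t + 1) c := by
  intro i
  refine ⟨by omega, ?_⟩
  unfold putc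
  have h1 : (6 * t + 1 + i.1) / 6 = t := by omega
  have h2 : (6 * t + 1 + i.1) % 6 = i.1 + 1 := by omega
  rw [dif_pos]
  · congr 1
    apply Fin.ext
    simp only
    omega
  · simp only
    rw [h1, h2]
    exact ⟨ht, by omega, by omega⟩

/-- windows after the change, outside -/
theorem at_putc_not (c c' : Fin 4 → Lt n) (S : Finset ℕ) (w : Fin ℓ → Lt n) (t : ℕ) (ht : t ∉ S) :
    At (putc c S w) (6 * t + 1) c' ↔ At w (6 * t + 1) c' := by
  have h1 : ∀ (i : Fin 4) (h : 6 * t + 1 + i.1 < ℓ), putc c S w ⟨6 * t + 1 + i.1, h⟩ =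
      w ⟨6 * t + 1 + i.1, h⟩ := by
    intro i h
    unfold putc
    rw [dif_neg]
    rintro ⟨h2, -⟩
    apply ht
    have h1 : (6 * t + 1 + i.1) / 6 = t := by omega
    simp only at h2
    rwa [h1] at h2
  constructor
  · intro H i
    obtain ⟨h, h2⟩ := H i
    exact ⟨h, by rw [← h2, h1]⟩
  · intro H i
    obtain ⟨h, h2⟩ := H i
    exact ⟨h, by rw [h1, h2]⟩

theorem c0_ne_c1 {k k' : Fin n} (h : k ≠ k') : c0 k k' ≠ c1 k k' := by
  intro h1
  have := congrFun h1 1
  simp [c0, c1] at this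
  exact h this

theorem at_unique {b : ℕ} {w : Fin ℓ → Lt n} {s : ℕ} {c c' : Fin b → Lt n} (h : At w s c)
    (h' : At w s c') : c = c' := by
  funext i
  obtain ⟨h1, h2⟩ := h i
  obtain ⟨h3, h4⟩ := h' i
  rw [← h2, ← h4]

/-- the first and last letters and positivity -/
def Adm (k k' : Fin n) (c : Fin 4 → Lt n) : Prop :=
  c 0 = (k, true) ∧ c 3 = (k', true) ∧ ∀ i, (c i).2 = true

theorem adm_c0 (k k' : Fin n) : Adm k k' (c0 k k') := by
  refine ⟨rfl, rfl, ?_⟩
  intro i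
  fin_cases i <;> rfl

theorem adm_c1 (k k' : Fin n) : Adm k k' (c1 k k') := by
  refine ⟨rfl, rfl, ?_⟩
  intro i
  fin_cases i <;> rfl

theorem red_putc (k k' : Fin n) (c : Fin 4 → Lt n) (hc : Adm k k' c) (S : Finset ℕ)
    (w : Fin ℓ → Lt n) (hS : ∀ t ∈ S, ∃ c', Adm k k' c' ∧ At w (6 * t + 1) c') (hw : IsRed w) :
    IsRed (putc c S w) := by
  have hpos : ∀ i : Fin ℓ, i.1 / 6 ∈ S → 1 ≤ i.1 % 6 → i.1 % 6 ≤ 4 → (putc c S w i).2 = true := by
    intro i h1 h2 h3
    unfold putc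
    rw [dif_pos ⟨h1, h2, h3⟩]
    exact hc.2.2 _
  have hsame : ∀ i : Fin ℓ, ¬ (i.1 / 6 ∈ S ∧ 2 ≤ i.1 % 6 ∧ i.1 % 6 ≤ 3) → putc c S w i = w i := by
    intro i h
    unfold putc
    split_ifs with h1
    · obtain ⟨h2, h3, h4⟩ := h1
      obtain ⟨c', hc', hat⟩ := hS _ h2
      have h5 : i.1 % 6 = 1 ∨ i.1 % 6 = 4 := by
        by_contra h6
        exact h ⟨h2, by omega, by omega⟩
      rcases h5 with h5 | h5
      · obtain ⟨h7, h8⟩ := hat 0
        have e1 : (⟨i.1 % 6 - 1, by omega⟩ : Fin 4) = 0 := by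
          apply Fin.ext
          simp [h5]
        rw [e1, hc.1]
        have e2 : (⟨6 * (i.1 / 6) + 1 + ((0 : Fin 4) : ℕ), h7⟩ : Fin ℓ) = i := by
          apply Fin.ext
          simp
          omega
        rw [e2] at h8
        rw [h8, hc'.1]
      · obtain ⟨h7, h8⟩ := hat 3
        have e1 : (⟨i.1 % 6 - 1, by omega⟩ : Fin 4) = 3 := by
          apply Fin.ext
          simp [h5]
        rw [e1, hc.2.1]
        have e2 : (⟨6 * (i.1 / 6) + 1 + ((3 : Fin 4) : ℕ), h7⟩ : Fin ℓ) = i := by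
          apply Fin.ext
          simp
          omega
        rw [e2] at h8
        rw [h8, hc'.2.1]
    · rfl
  intro i i' hi h1
  by_cases hA : i.1 / 6 ∈ S ∧ 2 ≤ i.1 % 6 ∧ i.1 % 6 ≤ 3
  · have h2 : i'.1 / 6 = i.1 / 6 := by omega
    have h3 : i'.1 % 6 = i.1 % 6 + 1 := by omega
    rw [hpos i hA.1 (by omega) (by omega), hpos i' (h2 ▸ hA.1) (by omega) (by omega)]
  · by_cases hB : i'.1 / 6 ∈ S ∧ 2 ≤ i'.1 % 6 ∧ i'.1 % 6 ≤ 3
    · have h2 : i'.1 / 6 = i.1 / 6 := by omega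
      have h3 : i'.1 % 6 = i.1 % 6 + 1 := by omega
      rw [hpos i (h2 ▸ hB.1) (by omega) (by omega), hpos i' hB.1 (by omega) (by omega)]
    · rw [hsame i hA, hsame i' hB] at *
      exact hw i i' hi h1

open Classical in
/-- the windows with `k k' k k'` -/
noncomputable def W1 (k k' : Fin n) (w : Fin ℓ → Lt n) : Finset ℕ :=
  (Finset.range ℓ).filter fun t => At w (6 * t + 1) (c1 k k')

theorem mem_W1 (k k' : Fin n) (w : Fin ℓ → Lt n) (t : ℕ) :
    t ∈ W1 k k' w ↔ At w (6 * t + 1) (c1 k k') := by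
  classical
  unfold W1
  rw [Finset.mem_filter, Finset.mem_range]
  refine ⟨fun h => h.2, fun h => ⟨?_, h⟩⟩
  have := at_lt (by norm_num) h
  omega

theorem mem_TW (k k' : Fin n) (w : Fin ℓ → Lt n) (t : ℕ) :
    t ∈ TW k k' w ↔ Win k k' w t := by
  classical
  unfold TW
  rw [Finset.mem_filter, Finset.mem_range]
  refine ⟨fun h => h.2, fun h => ⟨?_, h⟩⟩
  rcases h with h | h <;>
  · have := at_lt (by norm_num) h
    omega

theorem fits {w : Fin ℓ → Lt n} {t : ℕ} {c : Fin 4 → Lt n} (h : At w (6 * t + 1) c) :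
    6 * t + 1 + 3 < ℓ := by
  obtain ⟨h1, _⟩ := h 3
  exact h1

/-- canonical word -/
noncomputable def can (k k' : Fin n) (w : Fin ℓ → Lt n) : Fin ℓ → Lt n := putc (c0 k k') (W1 k k' w) w

theorem can_red (k k' : Fin n) (w : Fin ℓ → Lt n) (hw : IsRed w) : IsRed (can k k' w) :=
  red_putc k k' _ (adm_c0 k k') _ w (fun t ht => ⟨_, adm_c1 k k', (mem_W1 k k' w t).1 ht⟩) hw

theorem can_not {k k' : Fin n} (h : k ≠ k') (w : Fin ℓ → Lt n) (t : ℕ) :
    ¬ At (can k k' w) (6 * t + 1) (c1 k k') := by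
  intro h1
  by_cases ht : t ∈ W1 k k' w
  · have h2 := at_putc_mem (c0 k k') _ w t ht (fits ((mem_W1 k k' w t).1 ht))
    exact c0_ne_c1 h (at_unique h2 h1)
  · exact ht ((mem_W1 k k' w t).2 ((at_putc_not _ _ _ w t ht).1 h1))

theorem can_sub (k k' : Fin n) (w : Fin ℓ → Lt n) : W1 k k' w ⊆ TW k k' (can k k' w) := by
  intro t ht
  rw [mem_TW]
  exact Or.inl (at_putc_mem (c0 k k') _ w t ht (fits ((mem_W1 k k' w t).1 ht)))

theorem put_can (k k' : Fin n) (w : Fin ℓ → Lt n) : put k k' (W1 k k' w) (can k k' w) = w := by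
  rw [← putc_c1, can, putc_putc]
  exact putc_self _ _ _ fun t ht => (mem_W1 k k' w t).1 ht

theorem sub_at {k k' : Fin n} {w : Fin ℓ → Lt n} (hw : ∀ t, ¬ At w (6 * t + 1) (c1 k k'))
    {S : Finset ℕ} (hS : S ⊆ TW k k' w) : ∀ t ∈ S, At w (6 * t + 1) (c0 k k') := by
  intro t ht
  rcases (mem_TW k k' w t).1 (hS ht) with h | h
  · exact h
  · exact absurd h (hw t)

theorem put_red {k k' : Fin n} {w : Fin ℓ → Lt n} (hw : ∀ t, ¬ At w (6 * t + 1) (c1 k k'))
    {S : Finset ℕ} (hS : S ⊆ TW k k' w) (hr : IsRed w) : IsRed (put k k' S w) := by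
  rw [← putc_c1]
  exact red_putc k k' _ (adm_c1 k k') _ w (fun t ht => ⟨_, adm_c0 k k', sub_at hw hS t ht⟩) hr

theorem W1_put {k k' : Fin n} {w : Fin ℓ → Lt n} (hw : ∀ t, ¬ At w (6 * t + 1) (c1 k k'))
    {S : Finset ℕ} (hS : S ⊆ TW k k' w) : W1 k k' (put k k' S w) = S := by
  ext t
  rw [mem_W1, ← putc_c1]
  by_cases ht : t ∈ S
  · exact ⟨fun _ => ht, fun _ => at_putc_mem _ S w t ht (fits (sub_at hw hS t ht))⟩
  · rw [at_putc_not _ _ _ w t ht]
    exact ⟨fun h => absurd h (hw t), fun h => absurd h ht⟩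

theorem can_put {k k' : Fin n} {w : Fin ℓ → Lt n} (hw : ∀ t, ¬ At w (6 * t + 1) (c1 k k'))
    {S : Finset ℕ} (hS : S ⊆ TW k k' w) : can k k' (put k k' S w) = w := by
  rw [can, W1_put hw hS, ← putc_c1, putc_putc]
  exact putc_self _ _ _ (sub_at hw hS)

end Pool.Agent.H577R3.RM.KeyP

namespace Pool.Agent.H577R3.RM

open Pool.Agent.H577R3.RM.KeyP

/-- `TaskKEYP` -/
theorem taskKEYP : TaskKEYP := by
  classical
  intro n ℓ m j k k' Bad D N hk hyp
  -- canonical tuples
  let Can := {r : Fin m → RW n ℓ // ∀ t, ¬ At (r j).1 (6 * t + 1) (c1 k k')}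
  let A : Can → Type := fun r => {S : Finset ℕ // S ⊆ TW k k' (r.1 j).1 ∧
      Bad (Function.update (fun l => (r.1 l).1) j (put k k' S (r.1 j).1))}
  let B : Can → Type := fun r => {S : Finset ℕ // S ⊆ TW k k' (r.1 j).1}
  have hBfin : ∀ r, Finite (B r) := by
    intro r
    have e : {S : Finset ℕ // S ∈ (TW k k' (r.1 j).1).powerset} ≃ B r :=
      Equiv.subtypeEquivRight fun S => by rw [Finset.mem_powerset]
    exact Finite.of_equiv _ e
  have hBcard : ∀ r, Nat.card (B r) = 2 ^ (TW k k' (r.1 j).1).card := by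
    intro r
    have e : {S : Finset ℕ // S ∈ (TW k k' (r.1 j).1).powerset} ≃ B r :=
      Equiv.subtypeEquivRight fun S => by rw [Finset.mem_powerset]
    rw [← Nat.card_congr e, Nat.card_eq_fintype_card, Fintype.card_coe, Finset.card_powerset]
  have hAfin : ∀ r, Finite (A r) := by
    intro r
    have := hBfin r
    exact Finite.of_injective (fun s : A r => (⟨s.1, s.2.1⟩ : B r)) fun s s' h => by
      apply Subtype.ext
      exact congrArg (fun x : B r => x.1) h
  -- the canonical tuple of a tuple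
  let cn : (Fin m → RW n ℓ) → (Fin m → RW n ℓ) := fun r =>
    Function.update r j ⟨can k k' (r j).1, can_red k k' _ (r j).2⟩
  have cnj : ∀ r, (cn r j).1 = can k k' (r j).1 := by
    intro r
    simp [cn]
  have hcn : ∀ r t, ¬ At (cn r j).1 (6 * t + 1) (c1 k k') := by
    intro r t
    rw [cnj]
    exact can_not hk _ t
  have hval : ∀ (r : Fin m → RW n ℓ) (S : Finset ℕ) (x : RW n ℓ),
      (fun l => (Function.update r j x l).1) = Function.update (fun l => (r l).1) j x.1 := by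
    intro r S x
    funext l
    by_cases hl : l = j
    · subst hl; simp
    · simp [hl]
  have hback : ∀ r : Fin m → RW n ℓ,
      Function.update (fun l => (cn r l).1) j (put k k' (W1 k k' (r j).1) (cn r j).1) =
        fun l => (r l).1 := by
    intro r
    rw [cnj, put_can]
    funext l
    by_cases hl : l = j
    · subst hl; simp
    · simp [cn, hl]
  -- first injection
  have h1 : Nat.card {r : Fin m → RW n ℓ // Bad (fun l => (r l).1)} ≤ Nat.card (Σ r : Can, A r) := by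
    refine Nat.card_le_card_of_injective (fun r => (⟨⟨cn r.1, hcn r.1⟩, ⟨W1 k k' (r.1 j).1, ?_, ?_⟩⟩ :
      Σ r : Can, A r)) ?_
    · show W1 k k' (r.1 j).1 ⊆ TW k k' (cn r.1 j).1
      rw [cnj]
      exact can_sub k k' _
    · show Bad (Function.update (fun l => (cn r.1 l).1) j (put k k' (W1 k k' (r.1 j).1) (cn r.1 j).1))
      rw [hback]
      exact r.2
    · intro r r' h
      have h2 : cn r.1 = cn r'.1 := congrArg (fun x : (Σ r : Can, A r) => x.1.1) h
      have h3 : W1 k k' (r.1 j).1 = W1 k k' (r'.1 j).1 :=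
        congrArg (fun x : (Σ r : Can, A r) => x.2.1) h
      have h4 := hback r.1
      rw [h2, h3, hback r'.1] at h4
      apply Subtype.ext
      funext l
      apply Subtype.ext
      exact (congrFun h4 l).symm
  -- second injection
  let F : (Σ r : Can, B r) → (Fin m → RW n ℓ) := fun x =>
    Function.update x.1.1 j ⟨put k k' x.2.1 (x.1.1 j).1, put_red x.1.2 x.2.2 (x.1.1 j).2⟩
  have h2 : Nat.card (Σ r : Can, B r) ≤ Nat.card (Fin m → RW n ℓ) := by
    refine Nat.card_le_card_of_injective F ?_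
    rintro ⟨r, S⟩ ⟨r', S'⟩ h
    have e1 : ∀ x, (F x j).1 = put k k' x.2.1 (x.1.1 j).1 := by
      intro x
      simp [F]
    have e2 : ∀ x, cn (F x) = x.1.1 := by
      intro x
      funext l
      by_cases hl : l = j
      · subst hl
        apply Subtype.ext
        rw [cnj, e1]
        exact can_put x.1.2 x.2.2
      · simp [cn, F, hl]
    have e3 : ∀ x, W1 k k' (F x j).1 = x.2.1 := by
      intro x
      rw [e1]
      exact W1_put x.1.2 x.2.2
    have e4 : r = r' := by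
      apply Subtype.ext
      have := e2 ⟨r, S⟩
      rw [h, e2] at this
      exact this.symm
    subst e4
    have e5 : S = S' := by
      apply Subtype.ext
      have := e3 ⟨r, S⟩
      rw [h, e3] at this
      exact this.symm
    rw [e5]
  rw [Nat.card_sigma] at h1 h2
  calc Nat.card {r : Fin m → RW n ℓ // Bad (fun l => (r l).1)} * D
      ≤ (∑ r : Can, Nat.card (A r)) * D := Nat.mul_le_mul_right _ h1
    _ = ∑ r : Can, Nat.card (A r) * D := by rw [Finset.sum_mul]
    _ ≤ ∑ r : Can, N * 2 ^ (TW k k' (r.1 j).1).card := Finset.sum_le_sum fun r _ => hyp r.1 r.2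
    _ = N * ∑ r : Can, Nat.card (B r) := by
        rw [Finset.mul_sum]
        exact Finset.sum_congr rfl fun r _ => by rw [hBcard]
    _ ≤ N * Nat.card (Fin m → RW n ℓ) := Nat.mul_le_mul_left _ h2

end Pool.Agent.H577R3.RM
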